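import Pool.Agent.Hhelper88.MkPrim
import Pool.Agent.Hhelper88.MkCount

/-!
# Second-order asymptotics of the Markov counting function and the asymptotics of the
`n`-th Markov number (own form)
-/

set_option autoImplicit false

open Filter Asymptotics Topology

namespace Pool.Agent.Results.MP_55fc5f_nt.SecondOrder

open Pool.Agent.Hhelper88

/-- `(x, y, z)` is a normalised Markov triple: positive integers `x ≤ y ≤ z` with
`x² + y² + z² = 3xyz`. -/
def IsMarkovTriple (t : ℕ × ℕ × ℕ) : Prop :=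
  1 ≤ t.1 ∧ t.1 ≤ t.2.1 ∧ t.2.1 ≤ t.2.2 ∧
    t.1 ^ 2 + t.2.1 ^ 2 + t.2.2 ^ 2 = 3 * t.1 * t.2.1 * t.2.2

/-- `M(X)`: the number of normalised Markov triples with largest entry at most `X`. -/
noncomputable def M (X : ℝ) : ℕ := {t : ℕ × ℕ × ℕ | IsMarkovTriple t ∧ (t.2.2 : ℝ) ≤ X}.ncard

/-- `m_n`: the `n`-th Markov number, counted with multiplicity, i.e. the least natural number `k`
such that at least `n` normalised Markov triples have largest entry at most `k`. -/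
noncomputable def markovNumber (n : ℕ) : ℕ := sInf {k : ℕ | n ≤ M (k : ℝ)}

lemma set_eq (X : ℝ) (hX : 0 ≤ X) : {t : ℕ × ℕ × ℕ | IsMarkovTriple t ∧ (t.2.2 : ℝ) ≤ X} =
    (((Finset.Icc 1 ⌊X⌋₊ ×ˢ (Finset.Icc 1 ⌊X⌋₊ ×ˢ Finset.Icc 1 ⌊X⌋₊)).filter
          (fun t : ℕ × ℕ × ℕ => t.1 ≤ t.2.1 ∧ t.2.1 ≤ t.2.2 ∧
            t.1 ^ 2 + t.2.1 ^ 2 + t.2.2 ^ 2 = 3 * t.1 * t.2.1 * t.2.2) : Finset (ℕ × ℕ × ℕ)) :
      Set (ℕ × ℕ × ℕ)) := by
  ext t
  simp only [Set.mem_ofPred_eq, Finset.coe_filter, Finset.mem_product, Finset.mem_Icc,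
    IsMarkovTriple]
  constructor
  · rintro ⟨⟨h1, h2, h3, h4⟩, h5⟩
    have h6 : t.2.2 ≤ ⌊X⌋₊ := Nat.le_floor h5
    exact ⟨⟨⟨h1, by omega⟩, ⟨by omega, by omega⟩, ⟨by omega, h6⟩⟩, h2, h3, h4⟩
  · rintro ⟨⟨⟨h1, _⟩, _, ⟨_, h6⟩⟩, h2, h3, h4⟩
    exact ⟨⟨h1, h2, h3, h4⟩, (Nat.le_floor_iff hX).1 h6⟩

lemma M_eq (X : ℝ) (hX : 0 ≤ X) : M X =
    ((Finset.Icc 1 ⌊X⌋₊ ×ˢ (Finset.Icc 1 ⌊X⌋₊ ×ˢ Finset.Icc 1 ⌊X⌋₊)).filter
          (fun t : ℕ × ℕ × ℕ => t.1 ≤ t.2.1 ∧ t.2.1 ≤ t.2.2 ∧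
            t.1 ^ 2 + t.2.1 ^ 2 + t.2.2 ^ 2 = 3 * t.1 * t.2.1 * t.2.2)).card := by
  unfold M
  rw [set_eq X hX, Set.ncard_coe_finset]

lemma M_mono {X Y : ℝ} (hX : 0 ≤ X) (h : X ≤ Y) : M X ≤ M Y := by
  unfold M
  apply Set.ncard_le_ncard
  · rintro t ⟨h1, h2⟩
    exact ⟨h1, h2.trans h⟩
  · rw [set_eq Y (hX.trans h)]
    exact Finset.finite_toSet _

lemma hh_log_bounds (x : ℝ) (hx : 4 ≤ x) :
    Real.log (3 * x) - 2 / x ≤ hh ⌊x⌋₊ ∧ hh ⌊x⌋₊ ≤ Real.log (3 * x) := by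
  have hx0 : 0 < x := by linarith
  have hX1 : 1 ≤ ⌊x⌋₊ := by
    rw [Nat.one_le_floor_iff]; linarith
  set X := ⌊x⌋₊ with hX
  have hXR : (X : ℝ) ≤ x := Nat.floor_le hx0.le
  have hXR2 : x < X + 1 := Nat.lt_floor_add_one x
  have hlp := lam_pos X hX1
  have hl1 := one_lt_lam X hX1
  have hinv := lam_add_inv X hX1
  have hinv1 : (lam X)⁻¹ < 1 := inv_lt_one_of_one_lt₀ hl1
  have hinv0 : 0 < (lam X)⁻¹ := inv_pos.2 hlp
  constructor
  · -- log(3x) - log(lam X) ≤ 2/x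
    have h1 : 3 * x - 4 ≤ lam X := by linarith
    have h2 : Real.log (3 * x) - hh X = Real.log (3 * x / lam X) := by
      unfold hh; rw [Real.log_div (by positivity) hlp.ne']
    have h3 : Real.log (3 * x / lam X) ≤ 3 * x / lam X - 1 := Real.log_le_sub_one_of_pos (by positivity)
    have h4 : 3 * x / lam X - 1 ≤ 2 / x := by
      have h5 : 3 * x / lam X ≤ 3 * x / (3 * x - 4) :=
        div_le_div_of_nonneg_left (by positivity) (by linarith) h1
      have h6 : 3 * x / (3 * x - 4) - 1 ≤ 2 / x := by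
        rw [div_sub_one (by linarith), div_le_div_iff₀ (by linarith) hx0]
        nlinarith
      linarith
    linarith
  · unfold hh
    apply Real.log_le_log hlp
    linarith

/-- the constant `c` -/
noncomputable def cM : ℝ := Ar / 2 * Cmu

lemma Cmu_pos : 0 < Cmu := by
  have hz := hasSum_zeta_two
  have h1 : HasSum (fun d : ℕ => (if d = 1 then (2 : ℝ) else 0) - 1 / (d : ℝ) ^ 2)
      (2 - Real.pi ^ 2 / 6) := (hasSum_ite_eq 1 (2 : ℝ)).sub hz
  have h2 : 2 - Real.pi ^ 2 / 6 ≤ Cmu := by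
    refine hasSum_le ?_ h1 summable_mu_sq.hasSum
    intro d
    by_cases hd : d = 1
    · subst hd
      rw [if_pos rfl]
      have : mu 1 = 1 := by
        unfold mu
        simp
      rw [this]
      norm_num
    · rw [if_neg hd, zero_sub, ← neg_div]
      apply div_le_div_of_nonneg_right _ (by positivity)
      linarith [neg_abs_le (mu d), abs_mu_le d]
  have h3 : Real.pi < 3.15 := Real.pi_lt_d2
  have h4 : 0 < Real.pi := Real.pi_pos
  nlinarith

lemma cM_pos : 0 < cM := by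
  unfold cM
  have := Ar_pos
  have := Cmu_pos
  positivity

theorem asymp0 : (fun x : ℝ =>
      (((Finset.Icc 1 ⌊x⌋₊ ×ˢ (Finset.Icc 1 ⌊x⌋₊ ×ˢ Finset.Icc 1 ⌊x⌋₊)).filter
          (fun t : ℕ × ℕ × ℕ => t.1 ≤ t.2.1 ∧ t.2.1 ≤ t.2.2 ∧
            t.1 ^ 2 + t.2.1 ^ 2 + t.2.2 ^ 2 = 3 * t.1 * t.2.1 * t.2.2)).card : ℝ)
        - (Ar / 2 * Cmu) * (Real.log (3 * x)) ^ 2)
      =o[atTop] (fun x : ℝ => Real.log x) := by
  set c := Ar / 2 * Cmu with hc
  rw [Asymptotics.isLittleO_iff]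
  intro ε hε
  obtain ⟨T0, hT01, hT0⟩ := prim_asymp (ε / 4) (by positivity)
  have hlog : ∀ᶠ x : ℝ in atTop, T0 + 1 + 16 / ε ≤ Real.log x :=
    Real.tendsto_log_atTop.eventually_ge_atTop _
  filter_upwards [hlog, eventually_ge_atTop (4 : ℝ), eventually_ge_atTop (64 * |c| / ε)] with x hx1 hx2 hx3
  have hx0 : 0 < x := by linarith
  obtain ⟨hT1, hT2⟩ := hh_log_bounds x hx2
  set X := ⌊x⌋₊ with hX
  set T := hh X with hT
  have hX2 : 2 ≤ X := by
    rw [hX]; apply Nat.le_floor; push_cast; linarith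
  have h16 : 0 < 16 / ε := by positivity
  have hlogx : 1 ≤ Real.log x := by linarith
  have hlog3 : Real.log (3 * x) = Real.log 3 + Real.log x := Real.log_mul (by norm_num) hx0.ne'
  have hl3 : 0 < Real.log 3 := Real.log_pos (by norm_num)
  have hl3' : Real.log 3 ≤ Real.log x := Real.log_le_log (by norm_num) (by linarith)
  have h2x : 2 / x ≤ 1 := by rw [div_le_one hx0]; linarith
  have hTge : T0 ≤ T := by linarith
  have hTpos : 0 < T := by linarith
  set M := ⌈2 * T⌉₊ with hM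
  have hM2 : 2 * T ≤ M := Nat.le_ceil _
  have hcount := markov_count X M hX2 (by
    rw [← hT]; linarith)
  rw [hcount]
  have hprim := hT0 T hTge M hM2
  rw [← hT]
  push_cast
  rw [Real.norm_eq_abs, Real.norm_eq_abs, abs_of_pos (by linarith : 0 < Real.log x)]
  set L := Real.log (3 * x) with hL
  have hTL : |T ^ 2 - L ^ 2| ≤ 2 / x * (2 * L) := by
    have e1 : T ^ 2 - L ^ 2 = -((L - T) * (L + T)) := by ring
    rw [e1, abs_neg, abs_of_nonneg (mul_nonneg (by linarith) (by linarith))]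
    apply mul_le_mul (by linarith) (by linarith) (by linarith) (by positivity)
  have hL2 : L ≤ 2 * Real.log x := by linarith
  have e2 : 2 + (CC M Node.root T : ℝ) - c * L ^ 2
      = 2 + ((CC M Node.root T : ℝ) - c * T ^ 2) + c * (T ^ 2 - L ^ 2) := by ring
  rw [e2]
  have b1 : |c * (T ^ 2 - L ^ 2)| ≤ ε / 8 * Real.log x := by
    rw [abs_mul]
    have h5 : |c| * |T ^ 2 - L ^ 2| ≤ |c| * (2 / x * (2 * (2 * Real.log x))) := by
      apply mul_le_mul_of_nonneg_left _ (abs_nonneg c)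
      refine hTL.trans ?_
      apply mul_le_mul_of_nonneg_left _ (by positivity)
      linarith
    refine h5.trans ?_
    have h6 : |c| * (2 / x * (2 * (2 * Real.log x))) = (8 * |c| / x) * Real.log x := by ring
    rw [h6]
    apply mul_le_mul_of_nonneg_right _ (by linarith)
    rw [div_le_iff₀ hx0]
    rw [div_le_iff₀ hε] at hx3
    linarith
  have b2 : (2 : ℝ) ≤ ε / 8 * Real.log x := by
    have h5 : 16 / ε ≤ Real.log x := by linarith
    rw [div_le_iff₀ hε] at h5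
    linarith
  have b3 : ε / 4 * T ≤ ε / 2 * Real.log x := by
    have : T ≤ 2 * Real.log x := hT2.trans hL2
    nlinarith
  have b4 : |2 + ((CC M Node.root T : ℝ) - c * T ^ 2) + c * (T ^ 2 - L ^ 2)|
      ≤ 2 + |(CC M Node.root T : ℝ) - c * T ^ 2| + |c * (T ^ 2 - L ^ 2)| := by
    refine (abs_add_le _ _).trans ?_
    have := abs_add_le 2 ((CC M Node.root T : ℝ) - c * T ^ 2)
    rw [abs_of_pos (by norm_num : (0 : ℝ) < 2)] at this
    linarith
  have hεl : 0 < ε * Real.log x := by positivity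
  linarith

theorem asymp : (fun X : ℝ => (M X : ℝ) - cM * Real.log (3 * X) ^ 2) =o[atTop]
    (fun X : ℝ => Real.log X) := by
  refine asymp0.congr' ?_ EventuallyEq.rfl
  filter_upwards [eventually_ge_atTop (0 : ℝ)] with X hX
  rw [M_eq X hX]
  rfl

theorem main_term : Tendsto (fun X : ℝ => (M X : ℝ) / Real.log X ^ 2) atTop (𝓝 cM) := by
  have h1 := asymp.tendsto_div_nhds_zero
  have h2 : Tendsto (fun X : ℝ => (Real.log X)⁻¹) atTop (𝓝 0) :=
    tendsto_inv_atTop_zero.comp Real.tendsto_log_atTop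
  have h3 : Tendsto (fun X : ℝ => ((M X : ℝ) - cM * Real.log (3 * X) ^ 2) / Real.log X *
      (Real.log X)⁻¹ + cM * (1 + Real.log 3 * (Real.log X)⁻¹) ^ 2) atTop
      (𝓝 (0 * 0 + cM * (1 + Real.log 3 * 0) ^ 2)) :=
    (h1.mul h2).add (((tendsto_const_nhds.add (tendsto_const_nhds.mul h2)).pow 2).const_mul cM)
  have h4 : (0 : ℝ) * 0 + cM * (1 + Real.log 3 * 0) ^ 2 = cM := by ring
  rw [h4] at h3
  refine h3.congr' ?_
  filter_upwards [eventually_gt_atTop (1 : ℝ)] with X hX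
  have hl : 0 < Real.log X := Real.log_pos hX
  have h5 : Real.log (3 * X) = Real.log 3 + Real.log X :=
    Real.log_mul (by norm_num) (by linarith)
  rw [h5]
  field_simp
  ring

/-- an analytic lemma -/
lemma sq_aux {c ε L L' s n : ℝ} (hc : 0 < c) (hε : 0 < ε) (hL : 0 ≤ L) (hs : 0 ≤ s)
    (hn : n = c * s ^ 2) (h1 : n ≤ c * L ^ 2 + ε * L) (h2 : c * L' ^ 2 - ε * L' ≤ n)
    (h3 : L - L' ≤ ε / c) : |L - s| ≤ 2 * (ε / c) := by
  set δ : ℝ := ε / c with hδ
  have hδ0 : 0 < δ := by positivity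
  have hεc : ε = c * δ := by
    rw [hδ]
    field_simp
  have k1 : s ^ 2 ≤ L ^ 2 + δ * L := by
    rw [hn, hεc] at h1
    have : c * s ^ 2 ≤ c * (L ^ 2 + δ * L) := by linarith
    exact le_of_mul_le_mul_left this hc
  have k2 : L' ^ 2 - δ * L' ≤ s ^ 2 := by
    rw [hn, hεc] at h2
    have : c * (L' ^ 2 - δ * L') ≤ c * s ^ 2 := by linarith
    exact le_of_mul_le_mul_left this hc
  have k3 : s ≤ L + δ := by
    by_contra hcon
    push Not at hcon
    nlinarith
  have k4 : L' ≤ s + δ := by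
    by_contra hcon
    push Not at hcon
    nlinarith
  rw [abs_le]
  constructor <;> linarith

lemma exists_large (n : ℕ) : ∃ k : ℕ, n ≤ M (k : ℝ) := by
  have h1 : Tendsto (fun X : ℝ => (M X : ℝ) / Real.log X ^ 2 * Real.log X ^ 2) atTop atTop :=
    main_term.pos_mul_atTop cM_pos
      ((tendsto_pow_atTop (by norm_num)).comp Real.tendsto_log_atTop)
  have h2 : ∀ᶠ X : ℝ in atTop, (n : ℝ) ≤ (M X : ℝ) := by
    filter_upwards [h1.eventually_ge_atTop (n : ℝ), eventually_gt_atTop (1 : ℝ)] with X h3 h4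
    have hl : 0 < Real.log X := Real.log_pos h4
    rwa [div_mul_cancel₀ _ (by positivity)] at h3
  obtain ⟨k, hk⟩ := (tendsto_natCast_atTop_atTop.eventually h2).exists
  exact ⟨k, by exact_mod_cast hk⟩

lemma le_M_markovNumber (n : ℕ) : n ≤ M (markovNumber n : ℝ) :=
  Nat.sInf_mem (s := {k : ℕ | n ≤ M (k : ℝ)}) (exists_large n)

lemma lt_markovNumber {n K : ℕ} (h : M (K : ℝ) < n) : K < markovNumber n := by
  by_contra hcon
  push Not at hcon
  have h1 := le_M_markovNumber n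
  have h2 : M (markovNumber n : ℝ) ≤ M (K : ℝ) := M_mono (Nat.cast_nonneg _) (by exact_mod_cast hcon)
  omega

lemma M_pred_lt {n : ℕ} (h : 1 ≤ markovNumber n) : M ((markovNumber n - 1 : ℕ) : ℝ) < n := by
  have h1 : markovNumber n - 1 < sInf {k : ℕ | n ≤ M (k : ℝ)} := by
    show markovNumber n - 1 < markovNumber n
    omega
  have h2 : markovNumber n - 1 ∉ {k : ℕ | n ≤ M (k : ℝ)} := Nat.notMem_of_lt_sInf h1
  have h3 : ¬ n ≤ M ((markovNumber n - 1 : ℕ) : ℝ) := h2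
  omega

lemma tendsto_log_sub : Tendsto (fun n : ℕ => Real.log (3 * (markovNumber n : ℝ)) -
    Real.sqrt (n / cM)) atTop (𝓝 0) := by
  have hc := cM_pos
  rw [Metric.tendsto_atTop]
  intro η hη
  set ε : ℝ := cM * (η / 4) with hε
  have hε0 : 0 < ε := by positivity
  have hεc : ε / cM = η / 4 := by
    rw [hε]
    field_simp
  have hev := (Asymptotics.isLittleO_iff.1 asymp) hε0
  obtain ⟨X0, hX0⟩ := Filter.eventually_atTop.1 hev
  obtain ⟨K, hK⟩ := exists_nat_ge (max (max X0 2) (4 / η))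
  refine ⟨M (K + 1 : ℕ) + 1, fun n hn => ?_⟩
  have hkK : K + 1 < markovNumber n := lt_markovNumber (by omega)
  set k := markovNumber n with hk
  have hk1 : ((k - 1 : ℕ) : ℝ) = (k : ℝ) - 1 := by
    rw [Nat.cast_sub (by omega), Nat.cast_one]
  have hKk : (K : ℝ) + 1 ≤ (k : ℝ) - 1 := by
    have : K + 1 ≤ k - 1 := by omega
    rw [← hk1]
    exact_mod_cast this
  have b1 : X0 ≤ K := (le_max_left _ _).trans ((le_max_left _ _).trans hK)
  have b2 : (2 : ℝ) ≤ K := (le_max_right _ _).trans ((le_max_left _ _).trans hK)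
  have b3 : 4 / η ≤ K := (le_max_right _ _).trans hK
  have a1 := hX0 (k : ℝ) (by linarith)
  have a2 := hX0 ((k : ℝ) - 1) (by linarith)
  have hlogle : ∀ X : ℝ, 1 ≤ X → |Real.log X| ≤ Real.log (3 * X) := by
    intro X hX
    rw [abs_of_nonneg (Real.log_nonneg hX)]
    exact Real.log_le_log (by linarith) (by linarith)
  rw [Real.norm_eq_abs, Real.norm_eq_abs] at a1 a2
  have a1' : |(M (k : ℝ) : ℝ) - cM * Real.log (3 * k) ^ 2| ≤ ε * Real.log (3 * k) :=
    a1.trans (mul_le_mul_of_nonneg_left (hlogle _ (by linarith)) hε0.le)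
  have a2' : |(M ((k : ℝ) - 1) : ℝ) - cM * Real.log (3 * ((k : ℝ) - 1)) ^ 2| ≤
      ε * Real.log (3 * ((k : ℝ) - 1)) :=
    a2.trans (mul_le_mul_of_nonneg_left (hlogle _ (by linarith)) hε0.le)
  have n1 : (n : ℝ) ≤ M (k : ℝ) := by exact_mod_cast le_M_markovNumber n
  have n2 : (M ((k : ℝ) - 1) : ℝ) ≤ n := by
    have := M_pred_lt (n := n) (by omega)
    rw [← hk, hk1] at this
    exact_mod_cast this.le
  have hL : 0 ≤ Real.log (3 * (k : ℝ)) := Real.log_nonneg (by linarith)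
  have hgap : Real.log (3 * (k : ℝ)) - Real.log (3 * ((k : ℝ) - 1)) ≤ ε / cM := by
    rw [hεc, ← Real.log_div (by linarith) (by linarith)]
    refine (Real.log_le_sub_one_of_pos (by
      apply div_pos <;> linarith)).trans ?_
    rw [div_sub_one (by linarith), div_le_iff₀ (by linarith)]
    have h5 : 1 ≤ η / 4 * K := by
      rw [div_le_iff₀ hη] at b3
      linarith
    nlinarith
  have hs2 : (n : ℝ) = cM * Real.sqrt (n / cM) ^ 2 := by
    rw [Real.sq_sqrt (by positivity)]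
    field_simp
  have hfin := sq_aux (c := cM) (ε := ε) (L := Real.log (3 * (k : ℝ)))
    (L' := Real.log (3 * ((k : ℝ) - 1))) (s := Real.sqrt (n / cM)) (n := n) hc hε0 hL
    (Real.sqrt_nonneg _) hs2 (by linarith [(abs_le.1 a1').2]) (by linarith [(abs_le.1 a2').1]) hgap
  rw [Real.dist_eq, sub_zero]
  refine hfin.trans_lt ?_
  rw [hεc]
  linarith

/-- **Second-order asymptotics of Markov numbers.**  There is a constant `c > 0` with
`M(X) ~ c (log X)²`, and for this `c` one has `M(X) = c (log 3X)² + o(log X)`; and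
`m_n ~ A^(√n) / 3` with `A = e^(1/√c)` for the `n`-th Markov number `m_n`. -/
theorem result : ∃ c : ℝ, 0 < c ∧
    Tendsto (fun X : ℝ => (M X : ℝ) / Real.log X ^ 2) atTop (𝓝 c) ∧
    (fun X : ℝ => (M X : ℝ) - c * Real.log (3 * X) ^ 2) =o[atTop] (fun X : ℝ => Real.log X) ∧
    Tendsto (fun n : ℕ => (markovNumber n : ℝ) /
      (1 / 3 * Real.exp (1 / Real.sqrt c) ^ Real.sqrt (n : ℝ))) atTop (𝓝 1) := by
  refine ⟨cM, cM_pos, main_term, asymp, ?_⟩
  have h1 := (Real.continuous_exp.tendsto 0).comp tendsto_log_sub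
  rw [Real.exp_zero] at h1
  refine h1.congr' ?_
  filter_upwards [eventually_ge_atTop (M ((0 : ℕ) : ℝ) + 1)] with n hn
  have hk : 0 < markovNumber n := lt_markovNumber (by omega)
  have hkR : (0 : ℝ) < markovNumber n := by exact_mod_cast hk
  show Real.exp (Real.log (3 * (markovNumber n : ℝ)) - Real.sqrt (n / cM)) = _
  rw [Real.exp_sub, Real.exp_log (by positivity), ← Real.exp_mul,
    Real.sqrt_div (Nat.cast_nonneg n)]
  have h2 : 1 / Real.sqrt cM * Real.sqrt (n : ℝ) = Real.sqrt n / Real.sqrt cM := by ring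
  rw [h2]
  have h3 := Real.exp_pos (Real.sqrt n / Real.sqrt cM)
  field_simp

end Pool.Agent.Results.MP_55fc5f_nt.SecondOrder
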